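import Pool.Agent.helper70.Oct.Defs

set_option autoImplicit false

/-!
# OCT-E1: segments of a ray (one-variable statements)
-/

open MvPolynomial Set Filter Topology

namespace Oct

namespace E1

theorem sg_true : sg true = 1 := by simp [sg]
theorem sg_false : sg false = -1 := by simp [sg]

theorem sg_mul_self (b : Bool) : sg b * sg b = 1 := by
  cases b <;> simp [sg]

theorem sg_not (b : Bool) : sg (!b) = -sg b := by
  cases b <;> simp [sg]

/-- the sign of `y` when `0 < sg b * y` -/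
theorem has_of (b : Bool) {y : ℝ} (h : 0 < sg b * y) {s : S3} (hs : s.Has y) : s = S3.of b := by
  cases b <;> cases s <;> simp_all [sg, S3.Has, S3.of] <;> linarith

theorem has_iff (b : Bool) {y : ℝ} (h : 0 < sg b * y) (s : S3) : s.Has y ↔ s = S3.of b := by
  constructor
  · exact has_of b h
  · rintro rfl
    cases b <;> simp_all [sg, S3.Has, S3.of]

theorem pres_of {e e' : Seg} {b : Bool} (h : pres e e' = some (b, !b, false)) (s : S3) :
    Pres e e' s ↔ s = S3.of b := by
  unfold Pres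
  rw [h]
  constructor
  · rintro ⟨p, n, z, h1, h2⟩
    simp only [Option.some.injEq, Prod.mk.injEq] at h1
    obtain ⟨rfl, rfl, rfl⟩ := h1
    cases b <;> cases s <;> simp_all [S3.of]
  · rintro rfl
    refine ⟨b, !b, false, rfl, ?_⟩
    cases b <;> simp [S3.of]

theorem pres_all {e e' : Seg} (h : pres e e' = some (true, true, true)) (s : S3) :
    Pres e e' s := by
  refine ⟨true, true, true, h, ?_⟩
  cases s <;> rfl

theorem not_pres {e e' : Seg} (h : pres e e' = some (false, false, false)) (s : S3) :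
    ¬ Pres e e' s := by
  rintro ⟨p, n, z, h1, h2⟩
  rw [h] at h1
  simp only [Option.some.injEq, Prod.mk.injEq] at h1
  obtain ⟨rfl, rfl, rfl⟩ := h1
  cases s <;> simp_all

theorem mono_sign {g : ℝ → ℝ} {A B : ℝ} (hAB : A ≤ B)
    (hg : StrictMonoOn g (Icc A B) ∨ StrictAntiOn g (Icc A B)) {b : Bool}
    (hA : 0 < sg b * g A) (hB : 0 < sg b * g B) {z : ℝ} (hz : z ∈ Icc A B) :
    0 < sg b * g z := by
  have hAm : A ∈ Icc A B := left_mem_Icc.2 hAB
  have hBm : B ∈ Icc A B := right_mem_Icc.2 hAB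
  rcases hg with hg | hg
  · have h1 := hg.monotoneOn hAm hz hz.1
    have h2 := hg.monotoneOn hz hBm hz.2
    cases b <;> simp only [sg, if_true, if_false, Bool.false_eq_true] at * <;> linarith
  · have h1 := hg.antitoneOn hAm hz hz.1
    have h2 := hg.antitoneOn hz hBm hz.2
    cases b <;> simp only [sg, if_true, if_false, Bool.false_eq_true] at * <;> linarith

theorem ivt {g : ℝ → ℝ} (hg : Continuous g) {A B : ℝ} (hAB : A ≤ B) {b b' : Bool} (hb : b ≠ b')
    (hA : 0 < sg b * g A) (hB : 0 < sg b' * g B) (s : S3) :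
    ∃ z ∈ Icc A B, s.Has (g z) := by
  have hAm : A ∈ Icc A B := left_mem_Icc.2 hAB
  have hBm : B ∈ Icc A B := right_mem_Icc.2 hAB
  by_cases h1 : s = S3.of b
  · exact ⟨A, hAm, (has_iff b hA s).2 h1⟩
  by_cases h2 : s = S3.of b'
  · exact ⟨B, hBm, (has_iff b' hB s).2 h2⟩
  have hs : s = S3.z := by
    cases b <;> cases b' <;> cases s <;> simp_all [S3.of]
  subst hs
  have h3 := intermediate_value_uIcc (f := g) (a := A) (b := B) hg.continuousOn
  rw [uIcc_of_le hAB] at h3
  have h4 : (0 : ℝ) ∈ uIcc (g A) (g B) := by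
    rw [mem_uIcc]
    cases b <;> cases b' <;> simp_all [sg]
    · left; constructor <;> linarith
    · right; constructor <;> linarith
  obtain ⟨z, hz, hz0⟩ := h3 h4
  exact ⟨z, hz, hz0⟩

/-- the intersection of two segments and the signs at its ends -/
theorem ends {g : ℝ → ℝ} {e e' : Seg} (he : SegOK g e) (he' : SegOK g e')
    (h1 : ¬ min e.hi e'.hi < max e.lo e'.lo) :
    ∃ A B : ℝ, A ≤ B ∧ (∀ z, z ∈ Icc A B ↔ z ∈ Icc (e.lo : ℝ) e.hi ∧ z ∈ Icc (e'.lo : ℝ) e'.hi) ∧
      0 < sg (if e'.lo ≤ e.lo then e.sl else e'.sl) * g A ∧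
      0 < sg (if e.hi ≤ e'.hi then e.sh else e'.sh) * g B := by
  refine ⟨((max e.lo e'.lo : ℤ) : ℝ), ((min e.hi e'.hi : ℤ) : ℝ), ?_, ?_, ?_, ?_⟩
  · exact_mod_cast not_lt.1 h1
  · intro z
    simp only [mem_Icc, Int.cast_max, Int.cast_min, max_le_iff, le_min_iff]
    tauto
  · split_ifs with h
    · rw [max_eq_left h]; exact he.2.1
    · rw [max_eq_right (le_of_lt (not_le.1 h))]; exact he'.2.1
  · split_ifs with h
    · rw [min_eq_left h]; exact he.2.2.1
    · rw [min_eq_right (le_of_lt (not_le.1 h))]; exact he'.2.2.1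

end E1

open E1

theorem pres_sound {g : ℝ → ℝ} (hg : Continuous g) {e e' : Seg} (he : SegOK g e)
    (he' : SegOK g e') (hp : pres e e' ≠ none) {z : ℝ} (hz : z ∈ Icc (e.lo : ℝ) e.hi)
    (hz' : z ∈ Icc (e'.lo : ℝ) e'.hi) {s : S3} (hs : s.Has (g z)) : Pres e e' s := by
  have h1 : ¬ min e.hi e'.hi < max e.lo e'.lo := by
    rw [not_lt, max_le_iff, le_min_iff, le_min_iff]
    have a1 := hz.1.trans hz.2
    have a2 := hz.1.trans hz'.2
    have a3 := hz'.1.trans hz.2
    have a4 := hz'.1.trans hz'.2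
    have b1 : e.lo ≤ e.hi := by exact_mod_cast a1
    have b2 : e.lo ≤ e'.hi := by exact_mod_cast a2
    have b3 : e'.lo ≤ e.hi := by exact_mod_cast a3
    have b4 : e'.lo ≤ e'.hi := by exact_mod_cast a4
    tauto
  by_cases h2 : e.df = true
  · have h3 : pres e e' = some (e.sl, !e.sl, false) := by
      unfold pres
      rw [if_neg h1, if_pos h2]
    rw [pres_of h3]
    exact has_of _ ((he.2.2.2.1 h2).2 z hz) hs
  by_cases h2' : e'.df = true
  · have h3 : pres e e' = some (e'.sl, !e'.sl, false) := by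
      unfold pres
      rw [if_neg h1, if_neg h2, if_pos h2']
    rw [pres_of h3]
    exact has_of _ ((he'.2.2.2.1 h2').2 z hz') hs
  by_cases h4 : (e.mo || e'.mo) = true
  · obtain ⟨A, B, hAB, hI, hA, hB⟩ := ends he he' h1
    by_cases h5 : (if e'.lo ≤ e.lo then e.sl else e'.sl) = (if e.hi ≤ e'.hi then e.sh else e'.sh)
    · have h3 : pres e e' = some ((if e'.lo ≤ e.lo then e.sl else e'.sl),
          !(if e'.lo ≤ e.lo then e.sl else e'.sl), false) := by
        unfold pres
        rw [if_neg h1, if_neg h2, if_neg h2', if_pos h4]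
        simp only
        rw [if_pos (by rw [beq_iff_eq]; exact h5)]
      rw [pres_of h3]
      refine has_of _ ?_ hs
      have hm : StrictMonoOn g (Icc A B) ∨ StrictAntiOn g (Icc A B) := by
        rcases (Bool.or_eq_true _ _).mp h4 with h6 | h6
        · exact (he.2.2.2.2 h6).2.imp (fun h => h.mono fun z hz => ((hI z).1 hz).1)
            (fun h => h.mono fun z hz => ((hI z).1 hz).1)
        · exact (he'.2.2.2.2 h6).2.imp (fun h => h.mono fun z hz => ((hI z).1 hz).2)
            (fun h => h.mono fun z hz => ((hI z).1 hz).2)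
      rw [← h5] at hB
      exact mono_sign hAB hm hA hB ((hI z).2 ⟨hz, hz'⟩)
    · have h3 : pres e e' = some (true, true, true) := by
        unfold pres
        rw [if_neg h1, if_neg h2, if_neg h2', if_pos h4]
        simp only
        rw [if_neg (by rw [beq_iff_eq]; exact h5)]
      exact pres_all h3 s
  · exfalso
    apply hp
    unfold pres
    rw [if_neg h1, if_neg h2, if_neg h2', if_neg h4]

theorem pres_exist {g : ℝ → ℝ} (hg : Continuous g) {e e' : Seg} (he : SegOK g e)
    (he' : SegOK g e') {s : S3} (h : Pres e e' s) :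
    ∃ z ∈ Icc (e.lo : ℝ) e.hi, z ∈ Icc (e'.lo : ℝ) e'.hi ∧ s.Has (g z) := by
  by_cases h1 : min e.hi e'.hi < max e.lo e'.lo
  · exfalso
    refine not_pres ?_ s h
    unfold pres
    rw [if_pos h1]
  obtain ⟨A, B, hAB, hI, hA, hB⟩ := ends he he' h1
  have hAm : A ∈ Icc A B := left_mem_Icc.2 hAB
  by_cases h2 : e.df = true
  · have h3 : pres e e' = some (e.sl, !e.sl, false) := by
      unfold pres
      rw [if_neg h1, if_pos h2]
    rw [pres_of h3] at h
    exact ⟨A, ((hI A).1 hAm).1, ((hI A).1 hAm).2,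
      (has_iff _ ((he.2.2.2.1 h2).2 A ((hI A).1 hAm).1) s).2 h⟩
  by_cases h2' : e'.df = true
  · have h3 : pres e e' = some (e'.sl, !e'.sl, false) := by
      unfold pres
      rw [if_neg h1, if_neg h2, if_pos h2']
    rw [pres_of h3] at h
    exact ⟨A, ((hI A).1 hAm).1, ((hI A).1 hAm).2,
      (has_iff _ ((he'.2.2.2.1 h2').2 A ((hI A).1 hAm).2) s).2 h⟩
  by_cases h4 : (e.mo || e'.mo) = true
  · by_cases h5 : (if e'.lo ≤ e.lo then e.sl else e'.sl) = (if e.hi ≤ e'.hi then e.sh else e'.sh)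
    · have h3 : pres e e' = some ((if e'.lo ≤ e.lo then e.sl else e'.sl),
          !(if e'.lo ≤ e.lo then e.sl else e'.sl), false) := by
        unfold pres
        rw [if_neg h1, if_neg h2, if_neg h2', if_pos h4]
        simp only
        rw [if_pos (by rw [beq_iff_eq]; exact h5)]
      rw [pres_of h3] at h
      exact ⟨A, ((hI A).1 hAm).1, ((hI A).1 hAm).2, (has_iff _ hA s).2 h⟩
    · obtain ⟨z, hz, hzs⟩ := ivt hg hAB h5 hA hB s
      exact ⟨z, ((hI z).1 hz).1, ((hI z).1 hz).2, hzs⟩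
  · exfalso
    obtain ⟨p, n, z, h6, -⟩ := h
    unfold pres at h6
    rw [if_neg h1, if_neg h2, if_neg h2', if_neg h4] at h6
    exact absurd h6 (by simp)

theorem segOK_flip {g : ℝ → ℝ} {e : Seg} (he : SegOK g e) : SegOK (fun z => g (-z)) e.flip := by
  obtain ⟨h1, h2, h3, h4, h5⟩ := he
  have hI : ∀ z : ℝ, z ∈ Icc ((e.flip.lo : ℤ) : ℝ) (e.flip.hi : ℤ) → -z ∈ Icc (e.lo : ℝ) e.hi := by
    intro z hz
    simp only [Seg.flip, Int.cast_neg, mem_Icc] at hz ⊢
    constructor <;> linarith [hz.1, hz.2]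
  refine ⟨?_, ?_, ?_, ?_, ?_⟩
  · simp only [Seg.flip]; omega
  · simp only [Seg.flip, Int.cast_neg, neg_neg]; exact h3
  · simp only [Seg.flip, Int.cast_neg, neg_neg]; exact h2
  · intro hd
    have hd' : e.df = true := hd
    obtain ⟨h6, h7⟩ := h4 hd'
    refine ⟨h6.symm, fun z hz => ?_⟩
    show 0 < sg e.sh * g (-z)
    rw [← h6]
    exact h7 _ (hI z hz)
  · intro hm
    have hm' : e.mo = true := hm
    obtain ⟨h6, h7⟩ := h5 hm'
    refine ⟨?_, ?_⟩
    · show e.sh = !e.sl
      rw [h6, Bool.not_not]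
    · rcases h7 with h7 | h7
      · right
        intro x hx y hy hxy
        exact h7 (hI y hy) (hI x hx) (by linarith)
      · left
        intro x hx y hy hxy
        exact h7 (hI y hy) (hI x hx) (by linarith)

end Oct
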