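import Pool.Agent.helper70.Oct.Defs

set_option autoImplicit false

/-!
# OCT-B: from the lifts to the projective plane
-/

open MvPolynomial Set Filter Topology

namespace Oct

namespace B

theorem toP_eq_iff (v w : V3) : toP v = toP w ↔ ∃ c : ℝ, c ≠ 0 ∧ v.1 = c • w.1 := by
  unfold toP
  rw [Projectivization.mk_eq_mk_iff']
  constructor
  · rintro ⟨c, hc⟩
    refine ⟨c, ?_, hc.symm⟩
    rintro rfl
    rw [zero_smul] at hc
    exact v.2 hc.symm
  · rintro ⟨c, _, h⟩
    exact ⟨c, h.symm⟩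

theorem toP_surj : Function.Surjective toP := by
  intro P
  exact ⟨⟨P.rep, P.rep_nonzero⟩, Projectivization.mk_rep P⟩

theorem continuous_toP : Continuous toP := continuous_coinduced_rng

theorem isOpen_RP_iff (U : Set RP2) : IsOpen U ↔ IsOpen (toP ⁻¹' U) := isOpen_coinduced

theorem isClosed_RP_iff (U : Set RP2) : IsClosed U ↔ IsClosed (toP ⁻¹' U) := by
  rw [← isOpen_compl_iff, isOpen_RP_iff, preimage_compl, isOpen_compl_iff]

theorem continuous_negV : Continuous negV :=
  Continuous.subtype_mk (continuous_subtype_val.neg) _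

theorem negV_negV (x : V3) : negV (negV x) = x := by
  apply Subtype.ext
  simp [negV]

theorem preimage_image {S : Set V3} (hS : ∀ x r hr, x ∈ S → mulV r hr x ∈ S) :
    toP ⁻¹' (toP '' S) = S ∪ negV ⁻¹' S := by
  ext v
  constructor
  · rintro ⟨w, hw, hvw⟩
    obtain ⟨c, hc, h⟩ := (toP_eq_iff w v).1 hvw
    rcases lt_or_gt_of_ne hc with hc | hc
    · right
      have hc' : 0 < (-c)⁻¹ := inv_pos.2 (neg_pos.2 hc)
      have := hS w _ hc' hw
      have e : mulV (-c)⁻¹ hc' w = negV v := by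
        apply Subtype.ext
        show (-c)⁻¹ • w.1 = -v.1
        rw [h, smul_smul, inv_neg, neg_mul, inv_mul_cancel₀ hc.ne, neg_smul, one_smul]
      rw [e] at this
      exact this
    · left
      have hc' : 0 < c⁻¹ := inv_pos.2 hc
      have := hS w _ hc' hw
      have e : mulV c⁻¹ hc' w = v := by
        apply Subtype.ext
        show c⁻¹ • w.1 = v.1
        rw [h, smul_smul, inv_mul_cancel₀ hc.ne', one_smul]
      rw [e] at this
      exact this
  · rintro (hv | hv)
    · exact ⟨v, hv, rfl⟩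
    · refine ⟨negV v, hv, ?_⟩
      rw [toP_eq_iff]
      exact ⟨-1, by norm_num, by simp [negV]⟩

end B

open B in
theorem arr_of_lifts {F : MvPolynomial (Fin 3) ℝ} {d : ℕ} (hF : F.IsHomogeneous d)
    {m : ℕ} {anc : ℕ → ℕ → Prop} {Ov Dd : ℕ → Set V3}
    (h : Lifts (fV F) m anc Ov Dd) :
    HasArrangement F m (fun i j => anc (i.1 + 1) (j.1 + 1)) := by
  have hO : ∀ o, toP ⁻¹' (toP '' Ov o) = Ov o ∪ negV ⁻¹' Ov o := fun o =>
    preimage_image fun x r hr hx => h.oCone o x r hr hx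
  have hD : ∀ o, toP ⁻¹' (toP '' Dd o) = Dd o ∪ negV ⁻¹' Dd o := fun o =>
    preimage_image fun x r hr hx => h.dCone o x r hr hx
  have hE : ∀ o, toP ⁻¹' (toP '' Ov o ∪ toP '' Dd o)ᶜ
      = (Ov o ∪ Dd o ∪ (negV ⁻¹' Ov o ∪ negV ⁻¹' Dd o))ᶜ := by
    intro o
    rw [preimage_compl, preimage_union, hO, hD]
    congr 1
    ext x
    simp only [mem_union]
    tauto
  refine ⟨fun i => toP '' Ov (i.1 + 1), fun i => toP '' Dd (i.1 + 1), ?_, ?_, ?_, ?_⟩
  · intro i
    have h1 : 1 ≤ i.1 + 1 := by omega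
    have h2 : i.1 + 1 ≤ m := i.2
    refine ⟨?_, ?_, ?_, ?_, ?_, ?_, ?_, ?_, ?_⟩
    · rw [isClosed_RP_iff, hO]
      exact (h.oClosed _ h1 h2).union ((h.oClosed _ h1 h2).preimage continuous_negV)
    · exact (h.oConn _ h1 h2).image _ continuous_toP.continuousOn
    · rw [isOpen_RP_iff, hD]
      exact (h.dOpen _ h1 h2).union ((h.dOpen _ h1 h2).preimage continuous_negV)
    · exact (h.dConn _ h1 h2).image _ continuous_toP.continuousOn
    · rw [Set.disjoint_left]
      rintro P ⟨v, hv, rfl⟩ hP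
      have hP' : v ∈ toP ⁻¹' (toP '' Dd (i.1 + 1)) := hP
      rw [hD] at hP'
      rcases hP' with hP' | hP'
      · exact Set.disjoint_left.1 (h.od _ h1 h2) hv hP'
      · exact Set.disjoint_left.1 (h.od' _ h1 h2) hv hP'
    · rw [isOpen_RP_iff, hE]
      exact h.extOpen _ h1 h2
    · have h3 := (h.extConn _ h1 h2).image toP continuous_toP.continuousOn
      rw [← hE, image_preimage_eq _ toP_surj] at h3
      exact h3
    · rw [hD]
      intro hpre
      obtain ⟨x, hx⟩ := (h.dConn _ h1 h2).nonempty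
      have hx' : negV x ∈ negV ⁻¹' Dd (i.1 + 1) := by
        rw [mem_preimage, negV_negV]; exact hx
      obtain ⟨z, -, hz⟩ := hpre _ _ (h.dOpen _ h1 h2)
        ((h.dOpen _ h1 h2).preimage continuous_negV) subset_rfl
        ⟨x, Or.inl hx, hx⟩ ⟨negV x, Or.inr hx', hx'⟩
      exact Set.disjoint_left.1 (h.dd _ h1 h2) hz.1 hz.2
    · rw [hE]
      exact (h.extConn _ h1 h2).isPreconnected
  · intro i j hij
    have hij' : i.1 + 1 ≠ j.1 + 1 := by
      intro h'
      exact hij (Fin.ext (by omega))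
    rw [Set.disjoint_left]
    rintro P ⟨v, hv, rfl⟩ hP
    have hP' : v ∈ toP ⁻¹' (toP '' Ov (j.1 + 1)) := hP
    rw [hO] at hP'
    rcases hP' with hP' | hP'
    · exact Set.disjoint_left.1 (h.oo2 _ _ (by omega) i.2 (by omega) j.2 hij') hv hP'
    · exact Set.disjoint_left.1 (h.oo2' _ _ (by omega) i.2 (by omega) j.2 hij') hv hP'
  · ext P
    rw [mem_iUnion]
    set x : V3 := ⟨P.rep, P.rep_nonzero⟩ with hx
    have hPx : toP x = P := Projectivization.mk_rep P
    have h0 : P ∈ realPart F ↔ fV F x = 0 := Iff.rfl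
    have h1 : ∀ o, P ∈ toP '' Ov o ↔ (x ∈ Ov o ∨ negV x ∈ Ov o) := by
      intro o
      rw [← hPx]
      show x ∈ toP ⁻¹' (toP '' Ov o) ↔ _
      rw [hO]
      rfl
    rw [h0, h.zero]
    constructor
    · rintro ⟨i, hi⟩
      exact ⟨i.1 + 1, by omega, i.2, (h1 _).1 hi⟩
    · rintro ⟨o, ho1, ho2, ho⟩
      refine ⟨⟨o - 1, by omega⟩, ?_⟩
      have e : o - 1 + 1 = o := by omega
      show P ∈ toP '' Ov (o - 1 + 1)
      rw [e]
      exact (h1 o).2 ho
  · intro i j
    constructor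
    · intro hsub
      by_contra hn
      obtain ⟨v, hv⟩ := (h.oConn (j.1 + 1) (by omega) j.2).nonempty
      have hP : toP v ∈ toP '' Dd (i.1 + 1) := hsub ⟨v, hv, rfl⟩
      have hP' : v ∈ toP ⁻¹' (toP '' Dd (i.1 + 1)) := hP
      rw [hD] at hP'
      rcases hP' with hP' | hP'
      · exact Set.disjoint_left.1 (h.nest' _ _ (by omega) i.2 (by omega) j.2 hn) hv hP'
      · exact Set.disjoint_left.1 (h.nest2 _ _ (by omega) i.2 (by omega) j.2) hv hP'
    · intro hn
      exact image_mono (h.nest _ _ (by omega) i.2 (by omega) j.2 hn)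

end Oct
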